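import Pool.Agent.Helper82.SG.St

/-!
# Project SG, module UPB: the upper bound for the lattice ratio
-/

set_option autoImplicit false

namespace Pool.Agent.Helper72.SG

open Finset Real MeasureTheory Pool.Agent.Helper77.Steiner Pool.Agent.Helper82.SG
open Pool.Agent.Helper18.GP (nlen NConn)
open scoped ENNReal

/-- From networks to connected sets. -/
private lemma mst_le_of_net {d : ℕ} (c b : ℝ) (hb : 0 < b)
    (hN : ∀ A : Finset (EuclideanSpace ℝ (Fin d)), A.Nonempty →
      ∀ (V : Finset (EuclideanSpace ℝ (Fin d))) (l : ℝ), Net V l → A ⊆ V →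
        c * mstLen A ≤ b * l)
    (A : Finset (EuclideanSpace ℝ (Fin d))) (hA : A.Nonempty) (S : Set (EuclideanSpace ℝ (Fin d)))
    (hS : IsConnected (S ∪ (A : Set (EuclideanSpace ℝ (Fin d))))) (hfin : μH[1] S ≠ ⊤) :
    c * mstLen A ≤ b * (μH[1] S).toReal := by
  have hA0 : μH[1] (A : Set (EuclideanSpace ℝ (Fin d))) = 0 := by
    have := Measure.nullSingletonClass_hausdorff (EuclideanSpace ℝ (Fin d)) (d := 1) one_pos
    exact A.finite_toSet.measure_zero _
  have hSA : μH[1] (S ∪ (A : Set (EuclideanSpace ℝ (Fin d)))) ≤ μH[1] S := by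
    refine (measure_union_le _ _).trans ?_
    rw [hA0, add_zero]
  have hSAfin : μH[1] (S ∪ (A : Set (EuclideanSpace ℝ (Fin d)))) ≠ ⊤ :=
    ne_top_of_le_ne_top hfin hSA
  apply le_of_forall_pos_le_add
  intro ε hε
  obtain ⟨V, l, hNV, hAV, hl⟩ := exists_net hS.isPreconnected A hA
    (fun x hx => Or.inr (by exact_mod_cast hx)) hSAfin (η := ε / b) (by positivity)
  have h3 : (μH[1] (S ∪ (A : Set (EuclideanSpace ℝ (Fin d))))).toReal ≤ (μH[1] S).toReal :=
    ENNReal.toReal_mono hfin hSA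
  calc c * mstLen A ≤ b * l := hN A hA V l hNV hAV
    _ ≤ b * ((μH[1] S).toReal + ε / b) := mul_le_mul_of_nonneg_left (by linarith) hb.le
    _ = b * (μH[1] S).toReal + ε := by field_simp

theorem hUPB (hNTW : StNTW) (hGRD : StGRD) : StUPB := by
  intro d M K c hd hM hK hδ hc hgrid
  obtain ⟨δ, hδdef⟩ : ∃ δ : ℝ, δ = √d * (4 * exp (3 * K)) / M := ⟨_, rfl⟩
  rw [← hδdef] at hδ ⊢
  have hK0 : (0 : ℝ) < K := by exact_mod_cast hK
  have hb : (0 : ℝ) < 1 + 4 / K := by positivity
  have hc' : 0 ≤ c * (1 - 10 * δ) := by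
    apply mul_nonneg (by linarith)
    linarith
  have hD : (1 : ℝ) ≤ 4 * exp (3 * K) := by
    have : (1 : ℝ) ≤ exp (3 * K) := by
      rw [← Real.exp_zero]
      exact Real.exp_le_exp.2 (by positivity)
    linarith
  have hN : ∀ A : Finset (EuclideanSpace ℝ (Fin d)), A.Nonempty →
      ∀ (V : Finset (EuclideanSpace ℝ (Fin d))) (l : ℝ), Net V l → A ⊆ V →
        c * (1 - 10 * δ) * mstLen A ≤ (1 + 4 / K) * l := by
    apply hNTW K (c * (1 - 10 * δ)) hK hc'
    intro B hB hAsp V l hNV hBV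
    have h := hGRD d M c (4 * exp (3 * K)) hd hM hD (by rw [← hδdef]; exact hδ) hc hgrid B hB
      hAsp V l hNV hBV
    rw [← hδdef] at h
    exact h
  unfold steinerRatio steinerRatioOf
  refine le_iInf₂ fun A hA => ?_
  have hAne : A.Nonempty := Finset.card_pos.1 (by omega)
  have hpos := mstLen_pos A hA
  rw [ENNReal.le_div_iff_mul_le (Or.inl (by simpa using hpos)) (Or.inl ENNReal.ofReal_ne_top)]
  unfold steinerLen
  refine le_iInf fun S => le_iInf₂ fun _ hS => ?_
  by_cases hfin : μH[1] S = ⊤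
  · rw [hfin]; exact le_top
  · have h := mst_le_of_net _ _ hb hN A hAne S hS hfin
    rw [← ENNReal.ofReal_mul (div_nonneg hc' hb.le)]
    apply ENNReal.ofReal_le_of_le_toReal
    rw [div_mul_eq_mul_div, div_le_iff₀ hb]
    linarith

end Pool.Agent.Helper72.SG
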